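import Pool.Agent.W259.GP.Defs

/-!
# Rotated products of one-mode eigenfunctions (GP-M1, GP-MXY)
-/

open MeasureTheory Finset Filter
open scoped Topology

namespace Pool.Agent.W390.GPM

open Pool.Agent.W259.GP

variable {m : ℕ} {O : Fin m → Fin m → ℝ}

theorem rot_eq (O : Fin m → Fin m → ℝ) : rot O = Matrix.toLin' (Matrix.of O) := by
  funext x j
  simp [rot, Matrix.toLin'_apply, Matrix.mulVec, dotProduct]

theorem mulT (hO : IsOrth O) : Matrix.of O * (Matrix.of O).transpose = 1 := by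
  ext j l
  simp [Matrix.mul_apply, Matrix.one_apply, hO j l]

/-- the columns are orthonormal as well -/
theorem cols (hO : IsOrth O) (i l : Fin m) : ∑ j, O j i * O j l = if i = l then 1 else 0 := by
  have h := mul_eq_one_comm.mp (mulT hO)
  have := congrFun (congrFun h i) l
  simpa [Matrix.mul_apply, Matrix.one_apply] using this

theorem x_eq (hO : IsOrth O) (x : Fin m → ℝ) (i : Fin m) : x i = ∑ j, O j i * rot O x j := by
  have h : ∀ j, O j i * rot O x j = ∑ l, (O j i * O j l) * x l := by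
    intro j
    simp only [rot, mul_sum, mul_assoc]
  simp only [h]
  rw [sum_comm]
  simp only [← sum_mul, cols hO, ite_mul, one_mul, zero_mul, sum_ite_eq, mem_univ, if_true]

theorem sum_rot_sq (hO : IsOrth O) (x : Fin m → ℝ) : ∑ j, rot O x j ^ 2 = ∑ i, x i ^ 2 := by
  have h1 : ∀ j, rot O x j ^ 2 = ∑ i, x i * (O j i * rot O x j) := by
    intro j
    rw [pow_two]
    conv_lhs => rw [show rot O x j * rot O x j = (∑ i, O j i * x i) * rot O x j from rfl]
    rw [sum_mul]
    refine sum_congr rfl fun i _ => by ring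
  simp only [h1]
  rw [sum_comm]
  refine sum_congr rfl fun i _ => ?_
  rw [← mul_sum, ← x_eq hO x i, pow_two]

theorem rot_cont (O : Fin m → Fin m → ℝ) : Continuous (rot O) := by
  unfold rot
  fun_prop

theorem rot_inj (hO : IsOrth O) : Function.Injective (rot O) := by
  intro x y h
  funext i
  rw [x_eq hO x i, x_eq hO y i, h]

theorem rot_mp (hO : IsOrth O) : MeasurePreserving (rot O) := by
  refine ⟨(rot_cont O).measurable, ?_⟩
  have hd : (Matrix.of O).det * (Matrix.of O).det = 1 := by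
    have := congrArg Matrix.det (mulT hO)
    simpa using this
  have hne : (Matrix.of O).det ≠ 0 := by
    intro h
    rw [h] at hd
    norm_num at hd
  have habs : |((Matrix.of O).det)⁻¹| = 1 := by
    rcases mul_self_eq_one_iff.mp hd with h | h <;> rw [h] <;> norm_num
  rw [rot_eq, Real.map_matrix_volume_pi_eq_smul_volume_pi hne, habs]
  simp

/-- change of variables for the rotation -/
theorem integral_rot (hO : IsOrth O) (f : (Fin m → ℝ) → ℝ) :
    ∫ x, f (rot O x) = ∫ x, f x :=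
  (rot_mp hO).integral_comp ((rot_cont O).measurableEmbedding (rot_inj hO)) f

theorem integrable_rot (hO : IsOrth O) {f : (Fin m → ℝ) → ℝ} (hf : Integrable f) :
    Integrable fun x => f (rot O x) :=
  (rot_mp hO).integrable_comp_of_integrable hf

theorem integral_prod_rot (hO : IsOrth O) (g : Fin m → ℝ → ℝ) :
    ∫ x, ∏ j, g j (rot O x j) = ∏ j, ∫ t, g j t := by
  rw [integral_rot hO (fun q => ∏ j, g j (q j))]
  exact integral_fintype_prod_volume_eq_prod g

/-! ### One mode -/

theorem pow_exp_bound (e : ℕ) : ∃ C, 0 ≤ C ∧ ∀ x : ℝ,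
    |x ^ e| * Real.exp (-x ^ 2 / 2) ≤ C * Real.exp (-(1 / 4) * x ^ 2) := by
  refine ⟨(e.factorial : ℝ) * Real.exp 1, by positivity, fun x => ?_⟩
  have h1 : |x ^ e| ≤ (e.factorial : ℝ) * Real.exp |x| := by
    have := Real.pow_div_factorial_le_exp |x| (abs_nonneg x) e
    rw [abs_pow]
    rw [div_le_iff₀ (by positivity)] at this
    linarith
  have h2 : Real.exp |x| * Real.exp (-x ^ 2 / 2) ≤ Real.exp 1 * Real.exp (-(1 / 4) * x ^ 2) := by
    rw [← Real.exp_add, ← Real.exp_add]
    apply Real.exp_le_exp.mpr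
    have : 0 ≤ (|x| / 2 - 1) ^ 2 := sq_nonneg _
    have h3 : |x| ^ 2 = x ^ 2 := sq_abs x
    nlinarith
  calc |x ^ e| * Real.exp (-x ^ 2 / 2)
      ≤ (e.factorial : ℝ) * Real.exp |x| * Real.exp (-x ^ 2 / 2) := by gcongr
    _ = (e.factorial : ℝ) * (Real.exp |x| * Real.exp (-x ^ 2 / 2)) := by ring
    _ ≤ (e.factorial : ℝ) * (Real.exp 1 * Real.exp (-(1 / 4) * x ^ 2)) := by gcongr
    _ = _ := by ring

theorem one_integrable {c : ℝ} {ψ : ℕ → ℝ → ℝ} (h : Eig c ψ) (e k l : ℕ) :
    Integrable fun t => t ^ e * (ψ k t * ψ l t) := by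
  obtain ⟨C, hC⟩ := h.bound k
  obtain ⟨D, hD⟩ := h.bound l
  obtain ⟨E, hE0, hE⟩ := pow_exp_bound e
  have hi : Integrable fun x : ℝ => (|C| * |D| * E) * Real.exp (-(1 / 4) * x ^ 2) :=
    (integrable_exp_neg_mul_sq (by norm_num)).const_mul _
  refine hi.mono' ?_ ?_
  · exact ((continuous_pow e).mul ((h.cont k).mul (h.cont l))).aestronglyMeasurable
  · refine Eventually.of_forall fun x => ?_
    have h1 : |ψ k x| ≤ |C| * Real.exp (-x ^ 2 / 4) :=
      (hC x).trans (by gcongr; exact le_abs_self C)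
    have h2 : |ψ l x| ≤ |D| * Real.exp (-x ^ 2 / 4) :=
      (hD x).trans (by gcongr; exact le_abs_self D)
    have h3 : Real.exp (-x ^ 2 / 4) * Real.exp (-x ^ 2 / 4) = Real.exp (-x ^ 2 / 2) := by
      rw [← Real.exp_add]
      congr 1
      ring
    rw [Real.norm_eq_abs, abs_mul, abs_mul]
    calc |x ^ e| * (|ψ k x| * |ψ l x|)
        ≤ |x ^ e| * ((|C| * Real.exp (-x ^ 2 / 4)) * (|D| * Real.exp (-x ^ 2 / 4))) := by
          gcongr
      _ = |C| * |D| * (|x ^ e| * (Real.exp (-x ^ 2 / 4) * Real.exp (-x ^ 2 / 4))) := by ring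
      _ = |C| * |D| * (|x ^ e| * Real.exp (-x ^ 2 / 2)) := by rw [h3]
      _ ≤ |C| * |D| * (E * Real.exp (-(1 / 4) * x ^ 2)) :=
          mul_le_mul_of_nonneg_left (hE x) (by positivity)
      _ = _ := by ring

theorem mom1' {c : ℝ} {ψ : ℕ → ℝ → ℝ} (h : Eig c ψ) (k l : ℕ) :
    ∫ x, x * (ψ k x * ψ l x) = m1 c k l := h.mom1 k l

/-! ### Several modes -/

variable {c : Fin m → ℝ} {ψ : Fin m → ℕ → ℝ → ℝ}

theorem moment_integrable (hψ : ∀ j, Eig (c j) (ψ j)) (e κ κ' : Fin m → ℕ) :
    Integrable fun q : Fin m → ℝ =>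
      ∏ k, (q k ^ e k * (ψ k (κ k) (q k) * ψ k (κ' k) (q k))) :=
  Integrable.fintype_prod (f := fun k t => t ^ e k * (ψ k (κ k) t * ψ k (κ' k) t))
    fun k => one_integrable (hψ k) _ _ _

theorem moment_integral (e κ κ' : Fin m → ℕ) :
    ∫ q : Fin m → ℝ, ∏ k, (q k ^ e k * (ψ k (κ k) (q k) * ψ k (κ' k) (q k))) =
      ∏ k, ∫ t, t ^ e k * (ψ k (κ k) t * ψ k (κ' k) t) :=
  integral_fintype_prod_volume_eq_prod
    (f := fun k t => t ^ e k * (ψ k (κ k) t * ψ k (κ' k) t))

theorem moment_rot (hO : IsOrth O) (e κ κ' : Fin m → ℕ) :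
    ∫ x : Fin m → ℝ,
      ∏ k, (rot O x k ^ e k * (ψ k (κ k) (rot O x k) * ψ k (κ' k) (rot O x k))) =
      ∏ k, ∫ t, t ^ e k * (ψ k (κ k) t * ψ k (κ' k) t) := by
  rw [integral_rot hO (fun q => ∏ k, (q k ^ e k * (ψ k (κ k) (q k) * ψ k (κ' k) (q k)))),
    moment_integral]

theorem prod_single (q : Fin m → ℝ) (j : Fin m) :
    ∏ k, q k ^ (Pi.single j 1 : Fin m → ℕ) k = q j := by
  rw [prod_eq_single j]
  · simp
  · intro k _ hk
    simp [Pi.single_eq_of_ne hk]
  · intro h
    exact absurd (mem_univ j) h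

theorem modes1 : S_modes1 := by
  intro m O c ψ hO hc hψ
  refine ⟨fun κ => ?_, fun κ => ?_, fun κ κ' => ?_⟩
  · unfold chi
    refine continuous_finsetProd _ fun j _ => ((hψ j).cont (κ j)).comp ?_
    exact (continuous_apply j).comp (rot_cont O)
  · choose C hC using fun j => (hψ j).bound (κ j)
    refine ⟨∏ j, |C j|, fun x => ?_⟩
    rw [chi, abs_prod, ← sum_rot_sq hO x]
    have : (∏ j, |C j|) * Real.exp (-(∑ j, rot O x j ^ 2) / 4) =
        ∏ j, (|C j| * Real.exp (-rot O x j ^ 2 / 4)) := by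
      rw [prod_mul_distrib, ← Real.exp_sum]
      congr 2
      rw [neg_div, sum_div, ← sum_neg_distrib]
      refine sum_congr rfl fun j _ => by ring
    rw [this]
    refine prod_le_prod (fun j _ => abs_nonneg _) fun j _ => ?_
    refine (hC j (rot O x j)).trans ?_
    gcongr
    exact le_abs_self _
  · have h1 : ∀ x, chi O ψ κ x * chi O ψ κ' x =
        ∏ j, (ψ j (κ j) (rot O x j) * ψ j (κ' j) (rot O x j)) := by
      intro x
      rw [chi, chi, prod_mul_distrib]
    simp only [h1]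
    rw [integral_prod_rot hO (fun j t => ψ j (κ j) t * ψ j (κ' j) t)]
    simp only [(hψ _).orth]
    by_cases h : κ = κ'
    · subst h
      simp
    · rw [if_neg h]
      obtain ⟨j, hj⟩ := Function.ne_iff.mp h
      exact prod_eq_zero (mem_univ j) (by rw [if_neg hj])

/-- value of the first moments in the rotated coordinates -/
theorem mom_first (hψ : ∀ j, Eig (c j) (ψ j)) (κ κ' : Fin m → ℕ) (j : Fin m) :
    ∏ k, ∫ t, t ^ (Pi.single j 1 : Fin m → ℕ) k * (ψ k (κ k) t * ψ k (κ' k) t) =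
      if ∀ l, l ≠ j → κ l = κ' l then m1 (c j) (κ j) (κ' j) else 0 := by
  rw [← mul_prod_erase univ _ (mem_univ j)]
  have hj : ∫ t, t ^ (Pi.single j 1 : Fin m → ℕ) j * (ψ j (κ j) t * ψ j (κ' j) t) =
      m1 (c j) (κ j) (κ' j) := by
    simp only [Pi.single_eq_same, pow_one]
    exact mom1' (hψ j) _ _
  rw [hj]
  split_ifs with h
  · rw [prod_eq_one, mul_one]
    intro k hk
    have hk' := ne_of_mem_erase hk
    simp only [Pi.single_eq_of_ne hk', pow_zero, one_mul]
    rw [(hψ k).orth, if_pos (h k hk')]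
  · push Not at h
    obtain ⟨l, hl, hne⟩ := h
    rw [prod_eq_zero (mem_erase.mpr ⟨hl, mem_univ l⟩), mul_zero]
    simp only [Pi.single_eq_of_ne hl, pow_zero, one_mul]
    rw [(hψ l).orth, if_neg hne]

theorem mom_second_ne (hψ : ∀ j, Eig (c j) (ψ j)) (κ : Fin m → ℕ) (j l : Fin m) (hjl : j ≠ l) :
    ∏ k, ∫ t, t ^ (Pi.single j 1 + Pi.single l 1 : Fin m → ℕ) k *
      (ψ k (κ k) t * ψ k (κ k) t) = 0 := by
  refine prod_eq_zero (mem_univ j) ?_
  have : (Pi.single j 1 + Pi.single l 1 : Fin m → ℕ) j = 1 := by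
    simp [Pi.single_eq_of_ne hjl]
  simp only [this, pow_one]
  rw [mom1' (hψ j)]
  simp [m1]

theorem mom_second_eq (hψ : ∀ j, Eig (c j) (ψ j)) (κ : Fin m → ℕ) (j : Fin m) :
    ∏ k, ∫ t, t ^ (Pi.single j 1 + Pi.single j 1 : Fin m → ℕ) k *
      (ψ k (κ k) t * ψ k (κ k) t) = (2 * (κ j : ℝ) + 1) / (2 * √(1 + 2 * c j)) := by
  rw [prod_eq_single j]
  · have : (Pi.single j 1 + Pi.single j 1 : Fin m → ℕ) j = 2 := by simp
    simp only [this]
    rw [← (hψ j).mom2 (κ j)]
    refine integral_congr_ae (Eventually.of_forall fun x => ?_)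
    simp only
    ring
  · intro k _ hk
    have : (Pi.single j 1 + Pi.single j 1 : Fin m → ℕ) k = 0 := by
      simp [Pi.single_eq_of_ne hk]
    simp only [this, pow_zero, one_mul]
    rw [(hψ k).orth, if_pos rfl]
  · intro h
    exact absurd (mem_univ j) h

theorem mXY : S_mXY := by
  intro m O c ψ i hO hc hψ
  refine ⟨fun κ => ?_, fun κ κ' => ?_⟩
  · have h1 : ∀ x, x i ^ 2 * chi O ψ κ x ^ 2 = ∑ j, ∑ l, (O j i * O l i) *
        ∏ k, (rot O x k ^ (Pi.single j 1 + Pi.single l 1 : Fin m → ℕ) k *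
          (ψ k (κ k) (rot O x k) * ψ k (κ k) (rot O x k))) := by
      intro x
      have h2 : ∀ j l, ∏ k, (rot O x k ^ (Pi.single j 1 + Pi.single l 1 : Fin m → ℕ) k *
          (ψ k (κ k) (rot O x k) * ψ k (κ k) (rot O x k))) =
          (rot O x j * rot O x l) * chi O ψ κ x ^ 2 := by
        intro j l
        simp only [Pi.add_apply, pow_add]
        rw [prod_mul_distrib, prod_mul_distrib, prod_mul_distrib, prod_single, prod_single, chi,
          pow_two]
      simp only [h2]
      conv_lhs => rw [x_eq hO x i, pow_two, sum_mul_sum, sum_mul]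
      refine sum_congr rfl fun j _ => ?_
      rw [sum_mul]
      refine sum_congr rfl fun l _ => by ring
    rw [mY]
    simp only [h1]
    have hint : ∀ j l, Integrable fun x => (O j i * O l i) *
        ∏ k, (rot O x k ^ (Pi.single j 1 + Pi.single l 1 : Fin m → ℕ) k *
          (ψ k (κ k) (rot O x k) * ψ k (κ k) (rot O x k))) := fun j l =>
      (integrable_rot hO (moment_integrable hψ (Pi.single j 1 + Pi.single l 1) κ κ)).const_mul _
    rw [integral_finsetSum _ fun j _ => integrable_finsetSum _ fun l _ => hint j l]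
    refine sum_congr rfl fun j _ => ?_
    rw [integral_finsetSum _ fun l _ => hint j l]
    have h3 : ∀ l, ∫ x, (O j i * O l i) *
        ∏ k, (rot O x k ^ (Pi.single j 1 + Pi.single l 1 : Fin m → ℕ) k *
          (ψ k (κ k) (rot O x k) * ψ k (κ k) (rot O x k))) = (O j i * O l i) *
          ∏ k, ∫ t, t ^ (Pi.single j 1 + Pi.single l 1 : Fin m → ℕ) k *
            (ψ k (κ k) t * ψ k (κ k) t) := by
      intro l
      rw [integral_const_mul]
      congr 1
      exact moment_rot hO (Pi.single j 1 + Pi.single l 1) κ κ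
    simp only [h3]
    rw [sum_eq_single j]
    · rw [mom_second_eq hψ]
      ring
    · intro l _ hl
      rw [mom_second_ne hψ κ j l hl.symm, mul_zero]
    · intro h
      exact absurd (mem_univ j) h
  · have h1 : ∀ x, x i * (chi O ψ κ x * chi O ψ κ' x) = ∑ j, O j i *
        ∏ k, (rot O x k ^ (Pi.single j 1 : Fin m → ℕ) k *
          (ψ k (κ k) (rot O x k) * ψ k (κ' k) (rot O x k))) := by
      intro x
      have h2 : ∀ j, ∏ k, (rot O x k ^ (Pi.single j 1 : Fin m → ℕ) k *
          (ψ k (κ k) (rot O x k) * ψ k (κ' k) (rot O x k))) =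
          rot O x j * (chi O ψ κ x * chi O ψ κ' x) := by
        intro j
        rw [prod_mul_distrib, prod_mul_distrib, prod_single, chi, chi]
      simp only [h2]
      conv_lhs => rw [x_eq hO x i, sum_mul]
      refine sum_congr rfl fun j _ => by ring
    rw [mX]
    simp only [h1]
    have hint : ∀ j, Integrable fun x => O j i *
        ∏ k, (rot O x k ^ (Pi.single j 1 : Fin m → ℕ) k *
          (ψ k (κ k) (rot O x k) * ψ k (κ' k) (rot O x k))) := fun j =>
      (integrable_rot hO (moment_integrable hψ (Pi.single j 1) κ κ')).const_mul _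
    rw [integral_finsetSum _ fun j _ => hint j]
    refine sum_congr rfl fun j _ => ?_
    rw [integral_const_mul]
    congr 1
    exact (moment_rot hO (Pi.single j 1) κ κ').trans (mom_first hψ κ κ' j)

end Pool.Agent.W390.GPM
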